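import Pool.Agent.Helper58.LC.Goals

/-!
# Project LC (MP_957450_co), packet UN5
-/

set_option autoImplicit false

open Classical Finset

namespace Pool.Agent.Helper38.LC.UN5

open Pool.Agent.Helper58.LC

variable {I J : Type} (c : Cfg I J)

theorem sub_eq {j k : J} (h : j ≠ k) (t : ℝ) :
    c.ln j t - c.ln k t = (c.α j - c.α k) * (t - c.X j k) := by
  have h1 : c.α j - c.α k ≠ 0 := fun h2 => h (c.slope j k (by linarith))
  unfold Cfg.ln Cfg.X
  field_simp
  ring

/-- the correct comparison -/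
theorem cmp (j k : J) (h : j ≠ k) (t : ℝ) :
    (c.ln j t < c.ln k t ↔ (c.α j < c.α k ∧ c.X j k < t) ∨ (c.α k < c.α j ∧ t < c.X j k)) ∧
    (c.ln j t = c.ln k t ↔ t = c.X j k) ∧ c.X j k = c.X k j := by
  have h1 : c.α j ≠ c.α k := fun h2 => h (c.slope j k h2)
  have h2 := sub_eq c h t
  refine ⟨?_, ?_, ?_⟩
  · rcases lt_or_gt_of_ne h1 with h3 | h3
    · have h4 : ¬ c.α k < c.α j := not_lt.mpr h3.le
      simp only [h3, h4, true_and, false_and, or_false]
      constructor
      · intro h5
        by_contra h6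
        nlinarith
      · intro h5
        nlinarith
    · have h4 : ¬ c.α j < c.α k := not_lt.mpr h3.le
      simp only [h3, h4, true_and, false_and, false_or]
      constructor
      · intro h5
        by_contra h6
        nlinarith
      · intro h5
        nlinarith
  · constructor
    · intro h3
      have h4 : (c.α j - c.α k) * (t - c.X j k) = 0 := by rw [← h2, h3, sub_self]
      rcases mul_eq_zero.mp h4 with h5 | h5
      · exact absurd (by linarith) h1
      · linarith
    · intro h3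
      rw [← h3, sub_self, mul_zero] at h2
      linarith
  · have h3 : c.α j - c.α k ≠ 0 := fun h4 => h1 (by linarith)
    have h4 : c.α k - c.α j ≠ 0 := fun h4 => h1 (by linarith)
    unfold Cfg.X
    rw [div_eq_div_iff h3 h4]
    ring

/-- if `j` is less steep than `k` and below `k` at `t` then it is below `k` to the right of `t` -/
theorem right {j k : J} {s t : ℝ} (h : c.α j ≤ c.α k) (h1 : c.ln j s < c.ln k s) (h2 : s ≤ t) :
    c.ln j t < c.ln k t := by
  unfold Cfg.ln at *
  nlinarith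

theorem right' {j k : J} {s t : ℝ} (h : c.α j < c.α k) (h1 : c.ln j s ≤ c.ln k s) (h2 : s < t) :
    c.ln j t < c.ln k t := by
  unfold Cfg.ln at *
  nlinarith

theorem left {j k : J} {s t : ℝ} (h : c.α j ≤ c.α k) (h1 : c.ln k s < c.ln j s) (h2 : t ≤ s) :
    c.ln k t < c.ln j t := by
  unfold Cfg.ln at *
  nlinarith

/-- continuity: a strict inequality at `e` holds at some `t` slightly to the right -/
theorem near (j k : J) (e s : ℝ) (hs : e < s) (h : c.ln j e < c.ln k e) :
    ∃ t, e < t ∧ t < s ∧ ∀ u, e ≤ u → u ≤ t → c.ln j u < c.ln k u := by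
  rcases le_or_gt (c.α j) (c.α k) with h1 | h1
  · exact ⟨(e + s) / 2, by linarith, by linarith, fun u hu _ => right c h1 h hu⟩
  · have hd : 0 < c.ln k e - c.ln j e := by linarith
    have ha : 0 < c.α j - c.α k := by linarith
    obtain ⟨δ, hδ⟩ : ∃ δ, δ = min ((s - e) / 2) ((c.ln k e - c.ln j e) / (2 * (c.α j - c.α k))) :=
      ⟨_, rfl⟩
    have hδ0 : 0 < δ := by
      rw [hδ]
      exact lt_min (by linarith) (by positivity)
    have hδ1 : δ ≤ (s - e) / 2 := by rw [hδ]; exact min_le_left _ _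
    have hδ2 : δ * (2 * (c.α j - c.α k)) ≤ c.ln k e - c.ln j e := by
      rw [← le_div_iff₀ (by positivity)]
      rw [hδ]
      exact min_le_right _ _
    refine ⟨e + δ, by linarith, by linarith, fun u hu hu' => ?_⟩
    have h3 : (c.α j - c.α k) * (u - e) ≤ (c.α j - c.α k) * δ :=
      mul_le_mul_of_nonneg_left (by linarith) ha.le
    unfold Cfg.ln at *
    nlinarith

/-- the core: `e < e'` is impossible -/
theorem core (R : Finset J) (l a b a' b' : J) (e s e' s' : ℝ) (o : Option J) (hes : e < s)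
    (hes' : e' < s') (hN : ∀ t, e < t → t < s → c.Nb R t (c.ln l t) a b)
    (hN' : ∀ t, e' < t → t < s' → c.Nb R t (c.ln l t) a' b') (hT : T5 c R l a e o)
    (hT' : T5 c R l a' e' o) (hlt : e < e') : False := by
  obtain ⟨r, hrR, hra, hXr, har, hlr, hla, hor⟩ := hT
  obtain ⟨r', hrR', hra', hXr', har', hlr', hla', hor'⟩ := hT'
  -- no line of `R` meets `l` in `(e, e']`
  have H : ∀ k ∈ R, c.X l k ≤ e' → c.X l k ≤ e := by
    intro k hk hke
    rcases hor' with ⟨h1, h2⟩ | ⟨d, hd, h1, h2, h3⟩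
    · exact absurd (h2 k hk) (not_lt.mpr hke)
    · rcases hor with ⟨h4, h5⟩ | ⟨d2, hd2, h4, h5, h6⟩
      · rw [h4] at h1
        exact absurd h1 (by simp)
      · rw [h4] at h1
        have h7 : d2 = d := Option.some.inj h1
        rw [← h7] at h3
        exact (h3 k hk hke).trans h5
  have hm : e < (e + s) / 2 ∧ (e + s) / 2 < s := ⟨by linarith, by linarith⟩
  have haR : a ∈ R := (hN _ hm.1 hm.2).1
  have hlr1 : l ≠ r' := fun h => by rw [h] at hlr'; exact lt_irrefl _ hlr'
  have hla1 : l ≠ a := fun h => by rw [h] at har; exact lt_irrefl _ har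
  -- `ln r' e' = ln a' e'`
  have q1 : c.ln a' e' = c.ln r' e' := (cmp c a' r' (Ne.symm hra') e').2.1.mpr hXr'.symm
  have q2 : c.ln l e' < c.ln r' e' := q1 ▸ hla'
  -- `X l r' ≤ e`
  have q3 : c.X l r' < e' := by
    rcases (cmp c l r' hlr1 e').1.mp q2 with h | h
    · exact h.2
    · exact absurd h.1 (not_lt.mpr hlr'.le)
  have q4 : c.X l r' ≤ e := H r' hrR' q3.le
  -- `X l a > e'`
  have q5 : e < c.X l a := by
    rcases (cmp c l a hla1 e).1.mp hla with h | h
    · exact absurd h.1 (not_lt.mpr har.le)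
    · exact h.2
  have q6 : e' < c.X l a := by
    by_contra h
    exact absurd (H a haR (not_lt.mp h)) (not_le.mpr q5)
  have q7 : c.ln l e' < c.ln a e' := (cmp c l a hla1 e').1.mpr (Or.inr ⟨har, q6⟩)
  -- a point `t` slightly to the right of `e`
  obtain ⟨t, ht1, ht2, ht3⟩ : ∃ t, e < t ∧ t < s ∧ t < e' := by
    refine ⟨min ((e + s) / 2) ((e + e') / 2), lt_min (by linarith) (by linarith), ?_, ?_⟩
    · exact lt_of_le_of_lt (min_le_left _ _) (by linarith)
    · exact lt_of_le_of_lt (min_le_right _ _) (by linarith)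
  have q8 : c.ln l t < c.ln r' t :=
    (cmp c l r' hlr1 t).1.mpr (Or.inl ⟨hlr', lt_of_le_of_lt q4 ht1⟩)
  obtain ⟨-, -, n1, n2, n3⟩ := hN t ht1 ht2
  have hra2 : r' ≠ a := fun h => by rw [h] at hlr'; exact absurd har (not_lt.mpr hlr'.le)
  have hrb2 : r' ≠ b := fun h => by rw [h] at q8; exact absurd n2 (not_lt.mpr q8.le)
  have q9 : c.ln a t < c.ln r' t := by
    rcases n3 r' hrR' hra2 hrb2 with h | h
    · exact h
    · exact absurd (h.trans n2) (not_lt.mpr q8.le)
  have q10 : c.ln a e' < c.ln a' e' := by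
    rw [q1]
    exact right c (har.trans hlr').le q9 ht3.le
  -- contradiction to `Nb` to the right of `e'`
  obtain ⟨t1, a1, a2, a3⟩ := near c l a e' s' hes' q7
  obtain ⟨t2, b1, b2, b3⟩ := near c a a' e' t1 a1 q10
  have w1 : c.ln l t2 < c.ln a t2 := a3 t2 b1.le b2.le
  have w2 : c.ln a t2 < c.ln a' t2 := b3 t2 b1.le le_rfl
  obtain ⟨-, -, m1, m2, m3⟩ := hN' t2 b1 (b2.trans a2)
  have z1 : a ≠ a' := fun h => by rw [h] at w2; exact lt_irrefl _ w2
  have z2 : a ≠ b' := fun h => by rw [h] at w1; exact lt_asymm w1 m2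
  rcases m3 a haR z1 z2 with h | h
  · exact lt_asymm h w2
  · exact lt_asymm (h.trans m2) w1

theorem t : UN5 := by
  intro I J c R l a b a' b' e s e' s' o hes hes' hN hN' hT hT'
  rcases lt_trichotomy e e' with h | h | h
  · exact (core c R l a b a' b' e s e' s' o hes hes' hN hN' hT hT' h).elim
  · exact h
  · exact (core c R l a' b' a b e' s' e s o hes' hes hN' hN hT' hT h).elim

end Pool.Agent.Helper38.LC.UN5
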